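import Pool.Agent.P8H72.RE.Stm

/-!
# Project RE: MID (from level 1 to level 2)
-/

set_option autoImplicit false

open scoped Topology InnerProductSpace Kronecker ComplexOrder
open Filter Matrix

namespace Pool.Agent.P8H76.RE

open Pool.Agent.P8H72.RE
open Pool.Agent.N557.QWX (Op tr IsTracial IsHom)
open Pool.Agent.N859.QX (QWEP)

section basic

variable {H K E : Type} [NormedAddCommGroup H] [InnerProductSpace ℂ H] [CompleteSpace H]
  [NormedAddCommGroup K] [InnerProductSpace ℂ K] [CompleteSpace K]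
  [NormedAddCommGroup E] [InnerProductSpace ℂ E] [CompleteSpace E]

lemma vmul {A : VonNeumannAlgebra H} {x y : Op H} (hx : x ∈ A) (hy : y ∈ A) : x * y ∈ A :=
  mul_mem (S := VonNeumannAlgebra H) (s := A) hx hy

lemma vadd {A : VonNeumannAlgebra H} {x y : Op H} (hx : x ∈ A) (hy : y ∈ A) : x + y ∈ A :=
  add_mem (S := VonNeumannAlgebra H) (s := A) hx hy

lemma vsub {A : VonNeumannAlgebra H} {x y : Op H} (hx : x ∈ A) (hy : y ∈ A) : x - y ∈ A :=
  sub_mem hx hy

lemma vstar {A : VonNeumannAlgebra H} {x : Op H} (hx : x ∈ A) : star x ∈ A :=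
  star_mem (S := VonNeumannAlgebra H) (s := A) hx

lemma vone (A : VonNeumannAlgebra H) : (1 : Op H) ∈ A := one_mem A

lemma vsmul {A : VonNeumannAlgebra H} (c : ℂ) {x : Op H} (hx : x ∈ A) : c • x ∈ A :=
  A.toStarSubalgebra.smul_mem hx c

lemma vzero (A : VonNeumannAlgebra H) : (0 : Op H) ∈ A := by
  have := vsmul (A := A) 0 (vone A)
  rwa [zero_smul] at this

lemma vsum {A : VonNeumannAlgebra H} {ι : Type} (s : Finset ι) (f : ι → Op H)
    (hf : ∀ i ∈ s, f i ∈ A) : ∑ i ∈ s, f i ∈ A := by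
  classical
  induction s using Finset.induction_on with
  | empty => rw [Finset.sum_empty]; exact vzero A
  | insert i s hi ih =>
    rw [Finset.sum_insert hi]
    exact vadd (hf i (Finset.mem_insert_self _ _))
      (ih fun j hj => hf j (Finset.mem_insert_of_mem hj))

lemma tr_star_mul (ξ : H) (x : Op H) : tr ξ (star x * x) = ((‖x ξ‖ ^ 2 : ℝ) : ℂ) := by
  unfold tr
  rw [ContinuousLinearMap.mul_apply, ContinuousLinearMap.star_eq_adjoint,
    ContinuousLinearMap.adjoint_inner_right, inner_self_eq_norm_sq_to_K]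
  push_cast
  rfl

lemma norm_star {T : VonNeumannAlgebra E} {η : E} (hT : IsTracial T η) {x : Op E} (hx : x ∈ T) :
    ‖(star x) η‖ = ‖x η‖ := by
  have h1 := tr_star_mul η x
  have h2 := tr_star_mul η (star x)
  rw [star_star, hT.tracial x hx (star x) (vstar hx), h1] at h2
  have h3 : ‖x η‖ ^ 2 = ‖(star x) η‖ ^ 2 := by exact_mod_cast h2
  have h4 := (sq_eq_sq₀ (norm_nonneg _) (norm_nonneg _)).1 h3
  exact h4.symm

/-- right multiplication -/
lemma norm_mul_right {T : VonNeumannAlgebra E} {η : E} (hT : IsTracial T η) {x y : Op E}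
    (hx : x ∈ T) (hy : y ∈ T) : ‖(x * y) η‖ ≤ ‖x η‖ * ‖y‖ := by
  rw [← norm_star hT (vmul hx hy), star_mul, ContinuousLinearMap.mul_apply]
  refine ((star y).le_opNorm _).trans ?_
  rw [norm_star hT hx, _root_.norm_star, mul_comm]

lemma norm_mul_left (x y : Op E) (η : E) : ‖(x * y) η‖ ≤ ‖x‖ * ‖y η‖ := by
  rw [ContinuousLinearMap.mul_apply]
  exact x.le_opNorm _

lemma nadd (x y : Op E) (η : E) : ‖(x + y) η‖ ≤ ‖x η‖ + ‖y η‖ := norm_add_le _ _

end basic

section words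

variable {E : Type} [NormedAddCommGroup E] [InnerProductSpace ℂ E] [CompleteSpace E]

/-- letters -/
noncomputable def ltr {n : ℕ} (P : Fin n → Op E) (s : Fin n × Bool) : Op E :=
  if s.2 = true then P s.1 else star (P s.1)

lemma ev_nil {n : ℕ} (P : Fin n → Op E) : ev P [] = 1 := rfl

lemma ev_cons {n : ℕ} (P : Fin n → Op E) (s : Fin n × Bool) (w : List (Fin n × Bool)) :
    ev P (s :: w) = ltr P s * ev P w := by
  unfold ev ltr
  rw [List.map_cons, List.prod_cons]

lemma ltr_mem {T : VonNeumannAlgebra E} {n : ℕ} {P : Fin n → Op E} (hP : ∀ i, P i ∈ T)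
    (s : Fin n × Bool) : ltr P s ∈ T := by
  unfold ltr
  split_ifs
  · exact hP _
  · exact vstar (hP _)

lemma ev_mem {T : VonNeumannAlgebra E} {n : ℕ} {P : Fin n → Op E} (hP : ∀ i, P i ∈ T)
    (w : List (Fin n × Bool)) : ev P w ∈ T := by
  induction w with
  | nil => exact vone T
  | cons s w ih => rw [ev_cons]; exact vmul (ltr_mem hP s) ih

lemma ltr_norm {n : ℕ} {P : Fin n → Op E} {M : ℝ} (hP : ∀ i, ‖P i‖ ≤ M) (s : Fin n × Bool) :
    ‖ltr P s‖ ≤ M := by
  unfold ltr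
  split_ifs
  · exact hP _
  · rw [_root_.norm_star]; exact hP _

lemma ev_norm {n : ℕ} {P : Fin n → Op E} {M : ℝ} (hM : 1 ≤ M) (hP : ∀ i, ‖P i‖ ≤ M)
    (w : List (Fin n × Bool)) : ‖ev P w‖ ≤ M ^ w.length := by
  induction w with
  | nil =>
    rw [ev_nil]
    exact ContinuousLinearMap.norm_id_le
  | cons s w ih =>
    rw [ev_cons, List.length_cons, pow_succ, mul_comm (M ^ w.length)]
    refine (norm_mul_le _ _).trans ?_
    have h1 := ltr_norm hP s
    have h2 := norm_nonneg (ltr P s)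
    have h3 : 0 ≤ M ^ w.length := by positivity
    have h4 := norm_nonneg (ev P w)
    exact mul_le_mul h1 ih h4 (by linarith)

lemma ltr_sub {T : VonNeumannAlgebra E} {η : E} (hT : IsTracial T η) {n : ℕ} {P V : Fin n → Op E}
    (hP : ∀ i, P i ∈ T) (hV : ∀ i, V i ∈ T) {δ : ℝ} (h : ∀ i, ‖(P i - V i) η‖ ≤ δ)
    (s : Fin n × Bool) : ‖(ltr P s - ltr V s) η‖ ≤ δ := by
  unfold ltr
  split_ifs
  · exact h _
  · rw [← star_sub, norm_star hT (vsub (hP _) (hV _))]
    exact h _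

lemma ev_sub {T : VonNeumannAlgebra E} {η : E} (hT : IsTracial T η) {n : ℕ} {P V : Fin n → Op E}
    (hP : ∀ i, P i ∈ T) (hV : ∀ i, V i ∈ T) {M δ : ℝ} (hM : 1 ≤ M) (hδ : 0 ≤ δ)
    (hPn : ∀ i, ‖P i‖ ≤ M) (hVn : ∀ i, ‖V i‖ ≤ M) (h : ∀ i, ‖(P i - V i) η‖ ≤ δ)
    (w : List (Fin n × Bool)) : ‖(ev P w - ev V w) η‖ ≤ w.length * M ^ w.length * δ := by
  induction w with
  | nil => rw [ev_nil, ev_nil, sub_self]; simp
  | cons s w ih =>
    rw [ev_cons, ev_cons, List.length_cons]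
    have e1 : ltr P s * ev P w - ltr V s * ev V w =
        (ltr P s - ltr V s) * ev P w + ltr V s * (ev P w - ev V w) := by noncomm_ring
    rw [e1, ContinuousLinearMap.add_apply]
    have h1 := norm_mul_right hT (vsub (ltr_mem hP s) (ltr_mem hV s)) (ev_mem hP w)
    have h2 := norm_mul_left (ltr V s) (ev P w - ev V w) η
    have h3 := ltr_sub hT hP hV h s
    have h4 := ev_norm hM hPn w
    have h5 := ltr_norm hVn s
    have h6 : 0 ≤ M ^ w.length := by positivity
    have h7 : M ^ w.length ≤ M ^ (w.length + 1) := pow_le_pow_right₀ hM (Nat.le_succ _)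
    calc ‖((ltr P s - ltr V s) * ev P w) η + (ltr V s * (ev P w - ev V w)) η‖
        ≤ ‖(ltr P s - ltr V s) η‖ * ‖ev P w‖ + ‖ltr V s‖ * ‖(ev P w - ev V w) η‖ :=
          (norm_add_le _ _).trans (add_le_add h1 h2)
      _ ≤ δ * M ^ w.length + M * (w.length * M ^ w.length * δ) := by
          refine add_le_add (mul_le_mul h3 h4 (norm_nonneg _) hδ)
            (mul_le_mul h5 ih (norm_nonneg _) (by linarith))
      _ ≤ δ * M ^ (w.length + 1) + M * (w.length * M ^ w.length * δ) := by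
          gcongr
      _ = ((w.length + 1 : ℕ) : ℝ) * M ^ (w.length + 1) * δ := by
          push_cast
          ring

end words

section tens

variable {H K E : Type} [NormedAddCommGroup H] [InnerProductSpace ℂ H] [CompleteSpace H]
  [NormedAddCommGroup K] [InnerProductSpace ℂ K] [CompleteSpace K]
  [NormedAddCommGroup E] [InnerProductSpace ℂ E] [CompleteSpace E]
  {A : VonNeumannAlgebra H} {ξ : H} {N : VonNeumannAlgebra K} {ζ : K} {T : VonNeumannAlgebra E}
  {η : E} {a : Op H → Op E} {b : Op K → Op E}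

lemma hom_sub {B : VonNeumannAlgebra H} {T' : VonNeumannAlgebra E} {f : Op H → Op E}
    (hf : IsHom B T' f) {x y : Op H} (hx : x ∈ B) (hy : y ∈ B) : f (x - y) = f x - f y := by
  have h1 := hf.add (x - y) (vsub hx hy) y hy
  rw [sub_add_cancel] at h1
  rw [h1, add_sub_cancel_right]

lemma hom_zero {B : VonNeumannAlgebra H} {T' : VonNeumannAlgebra E} {f : Op H → Op E}
    (hf : IsHom B T' f) : f 0 = 0 := by
  have h1 := hom_sub hf (vzero B) (vzero B)
  rwa [sub_self, sub_self] at h1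

lemma hom_sum {B : VonNeumannAlgebra H} {T' : VonNeumannAlgebra E} {f : Op H → Op E}
    (hf : IsHom B T' f) {ι : Type} (s : Finset ι) (g : ι → Op H) (hg : ∀ i ∈ s, g i ∈ B) :
    f (∑ i ∈ s, g i) = ∑ i ∈ s, f (g i) := by
  classical
  induction s using Finset.induction_on with
  | empty => rw [Finset.sum_empty, Finset.sum_empty, hom_zero hf]
  | insert i s hi ih =>
    rw [Finset.sum_insert hi, Finset.sum_insert hi, hf.add _ (hg i (Finset.mem_insert_self _ _)) _
      (vsum s g fun j hj => hg j (Finset.mem_insert_of_mem hj)),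
      ih fun j hj => hg j (Finset.mem_insert_of_mem hj)]

lemma norm_a (hN : IsTracial N ζ) (h : IsTensor A ξ N ζ T η a b) {x : Op H} (hx : x ∈ A) :
    ‖a x η‖ = ‖x ξ‖ := by
  have h1 := h.trace (star x * x) (vmul (vstar hx) hx) 1 (vone N)
  rw [h.homN.one, mul_one, h.homA.mul _ (vstar hx) _ hx, h.homA.star x hx, tr_star_mul,
    tr_star_mul] at h1
  have h2 : tr ζ (1 : Op K) = 1 := by
    have h3 := tr_star_mul ζ (1 : Op K)
    rw [star_one, mul_one] at h3
    rw [h3, ContinuousLinearMap.one_apply, hN.unit]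
    norm_num
  rw [h2, mul_one] at h1
  have h3 : ‖a x η‖ ^ 2 = ‖x ξ‖ ^ 2 := by exact_mod_cast h1
  exact (sq_eq_sq₀ (norm_nonneg _) (norm_nonneg _)).1 h3

/-- one elementary tensor -/
lemma norm_ab (hN : IsTracial N ζ) (h : IsTensor A ξ N ζ T η a b) {x : Op H} (hx : x ∈ A)
    {y : Op K} (hy : y ∈ N) : ‖(a x * b y) η‖ ≤ ‖b y‖ * ‖x ξ‖ := by
  rw [h.comm x hx y hy, ← norm_a hN h hx]
  exact norm_mul_left _ _ _

lemma te_mem {S : VonNeumannAlgebra E} {B : VonNeumannAlgebra H} {L : ℕ} {d : Fin L → ℕ}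
    {ι : (∀ l, Matrix (Fin (d l)) (Fin (d l)) ℂ) →⋆ₐ[ℂ] Op H} (ha : IsHom B S a)
    (hb : IsHom N S b) (hι : ∀ z, ι z ∈ B) (κ : ∀ l, Fin (d l) → Fin (d l) → Op K)
    (hκ : ∀ l p q, κ l p q ∈ N) : te a b ι κ ∈ S := by
  unfold te
  refine vsum _ _ fun l _ => vsum _ _ fun p _ => vsum _ _ fun q _ => ?_
  exact vmul (ha.mem _ (hι _)) (hb.mem _ (hκ l p q))

/-- expansion in matrix units -/
lemma expand_mE {L : ℕ} {d : Fin L → ℕ} (z : ∀ l, Matrix (Fin (d l)) (Fin (d l)) ℂ) :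
    z = ∑ l, ∑ p, ∑ q, z l p q • mE d l p q := by
  funext l'
  simp only [Finset.sum_apply, Pi.smul_apply, mE]
  rw [Finset.sum_eq_single l']
  · simp only [Pi.single_eq_same]
    conv_lhs => rw [Matrix.matrix_eq_sum_single (z l')]
    refine Finset.sum_congr rfl fun p _ => Finset.sum_congr rfl fun q _ => ?_
    rw [Matrix.smul_single, smul_eq_mul, mul_one]
  · intro l _ hl
    refine Finset.sum_eq_zero fun p _ => Finset.sum_eq_zero fun q _ => ?_
    rw [Pi.single_eq_of_ne hl.symm, smul_zero]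
  · intro h
    exact absurd (Finset.mem_univ _) h

lemma te_expand {S : VonNeumannAlgebra E} {B : VonNeumannAlgebra H} {L : ℕ} {d : Fin L → ℕ}
    {ι : (∀ l, Matrix (Fin (d l)) (Fin (d l)) ℂ) →⋆ₐ[ℂ] Op H} (ha : IsHom B S a)
    (hb : IsHom N S b) (hι : ∀ z, ι z ∈ B) {r : ℕ} (z : Fin r → ∀ l, Matrix (Fin (d l)) (Fin (d l)) ℂ)
    (β : Fin r → Op K) (hβ : ∀ s, β s ∈ N) :
    ∑ s, a (ι (z s)) * b (β s) = te a b ι (fun l p q => ∑ s, z s l p q • β s) := by
  unfold te
  have h1 : ∀ s, a (ι (z s)) = ∑ l, ∑ p, ∑ q, z s l p q • a (ι (mE d l p q)) := by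
    intro s
    conv_lhs => rw [expand_mE (z s)]
    rw [map_sum, hom_sum ha _ _ (fun l _ => hι _)]
    refine Finset.sum_congr rfl fun l _ => ?_
    rw [map_sum, hom_sum ha _ _ (fun p _ => hι _)]
    refine Finset.sum_congr rfl fun p _ => ?_
    rw [map_sum, hom_sum ha _ _ (fun q _ => hι _)]
    refine Finset.sum_congr rfl fun q _ => ?_
    rw [map_smul, ha.smul _ _ (hι _)]
  have h2 : ∀ l p q, b (∑ s, z s l p q • β s) = ∑ s, z s l p q • b (β s) := by
    intro l p q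
    rw [hom_sum hb _ _ (fun s _ => vsmul _ (hβ s))]
    exact Finset.sum_congr rfl fun s _ => hb.smul _ _ (hβ s)
  simp only [h1, h2, Finset.sum_mul, Finset.mul_sum, smul_mul_assoc, mul_smul_comm]
  rw [Finset.sum_comm]
  refine Finset.sum_congr rfl fun l _ => ?_
  rw [Finset.sum_comm]
  refine Finset.sum_congr rfl fun p _ => ?_
  rw [Finset.sum_comm]

end tens

theorem t_MID : S_KAP → S_MID := by
  intro hKAP n R S x C
  refine ⟨2 * max C 0 + 1, fun ε hε => ⟨ε / 4, by positivity, ?_⟩⟩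
  rintro ⟨K, iK1, iK2, iK3, N, ζ, lv, V, hN, hQ, hVT, hVn, hVu, hVR, hVS, hVx⟩
  classical
  set M : ℝ := 2 * max C 0 + 1 with hM
  have hC0 : C ≤ max C 0 := le_max_left _ _
  have hC1 : 0 ≤ max C 0 := le_max_right _ _
  have hM1 : 1 ≤ M := by linarith
  have htr := lv.tensor.tracial
  have haT := lv.tensor.homA
  have hbT := lv.tensor.homN
  have haS : IsHom lv.B lv.S lv.a :=
    ⟨fun x hx => lv.gen.mem _ (Or.inl ⟨x, hx, rfl⟩), haT.one,
      fun x hx y hy => haT.add x (lv.le hx) y (lv.le hy), fun c x hx => haT.smul c x (lv.le hx),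
      fun x hx y hy => haT.mul x (lv.le hx) y (lv.le hy), fun x hx => haT.star x (lv.le hx)⟩
  have hbS : IsHom N lv.S lv.b :=
    ⟨fun y hy => lv.gen.mem _ (Or.inr ⟨y, hy, rfl⟩), hbT.one, hbT.add, hbT.smul, hbT.mul,
      hbT.star⟩
  have hcomm := lv.tensor.comm
  -- lengths of the words
  let W : Finset (FreeGroup (Fin n)) := insert x (R ∪ S)
  obtain ⟨ℓ, hℓ2, hℓ⟩ : ∃ ℓ : ℕ, 2 ≤ ℓ ∧ ∀ w ∈ W, w.toWord.length ≤ ℓ :=
    ⟨max 2 (W.sup fun w => w.toWord.length), le_max_left _ _, fun w hw =>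
      (Finset.le_sup (f := fun w : FreeGroup (Fin n) => w.toWord.length) hw).trans
        (le_max_right _ _)⟩
  have hℓ0 : (0 : ℝ) < ℓ := by
    have : (2 : ℝ) ≤ ℓ := by exact_mod_cast hℓ2
    linarith
  have hD : 0 < (ℓ : ℝ) * M ^ ℓ := by positivity
  set δ : ℝ := ε / (4 * ((ℓ : ℝ) * M ^ ℓ)) with hδd
  have hδ : 0 < δ := by positivity
  have hδD : (ℓ : ℝ) * M ^ ℓ * δ = ε / 4 := by
    rw [hδd]
    field_simp
  -- the approximants
  have hP := fun i => hKAP lv.H K lv.E lv.A N lv.T lv.a lv.b haT hbT hcomm lv.tensor.gen (V i)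
    (hVT i) lv.η δ hδ
  choose r α β hα hβ hPn hPd using hP
  let P : Fin n → Op lv.E := fun i => ∑ s, lv.a (α i s) * lv.b (β i s)
  have hPM : ∀ i, ‖P i‖ ≤ M := fun i => (hPn i).trans (by
    have := hVn i
    linarith)
  have hVM : ∀ i, ‖V i‖ ≤ M := fun i => (hVn i).trans (by linarith)
  have hPT : ∀ i, P i ∈ lv.T := fun i => vsum _ _ fun s _ =>
    vmul (haT.mem _ (hα i s)) (hbT.mem _ (hβ i s))
  have hPV : ∀ i, ‖(P i - V i) lv.η‖ ≤ δ := by
    intro i
    have h1 : (P i - V i) lv.η = -((V i - P i) lv.η) := by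
      rw [← neg_sub]
      rfl
    rw [h1, norm_neg]
    exact hPd i
  have hlen : ∀ w : List (Fin n × Bool), w.length ≤ ℓ →
      ‖(ev P w - ev V w) lv.η‖ ≤ ε / 4 := by
    intro w hw
    refine (ev_sub htr hPT hVT hM1 hδ.le hPM hVM hPV w).trans ?_
    rw [← hδD]
    have h1 : (w.length : ℝ) ≤ ℓ := by exact_mod_cast hw
    have h2 : M ^ w.length ≤ M ^ ℓ := pow_le_pow_right₀ hM1 hw
    gcongr
  have hunit : ∀ i, ‖(star (P i) * P i - 1) lv.η‖ ≤ ε := by
    intro i
    have h1 := hlen [(i, false), (i, true)] hℓ2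
    have e1 : ∀ Q : Fin n → Op lv.E, ev Q [(i, false), (i, true)] = star (Q i) * Q i := by
      intro Q
      rw [ev_cons, ev_cons, ev_nil, mul_one]
      unfold ltr
      simp
    rw [e1, e1] at h1
    have e2 : star (P i) * P i - 1 = (star (P i) * P i - star (V i) * V i) +
        (star (V i) * V i - 1) := by abel
    have h2 := hVu i
    rw [e2]
    refine (nadd _ _ _).trans ?_
    linarith
  -- elements of `S`
  have hS : ∀ w : FreeGroup (Fin n), ∃ (r' : ℕ) (α' : Fin r' → Op lv.H) (β' : Fin r' → Op K),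
      (∀ s, α' s ∈ lv.B) ∧ (∀ s, β' s ∈ N) ∧ (w ∈ S →
        ‖(ev V w.toWord - ∑ s, lv.a (α' s) * lv.b (β' s)) lv.η‖ ≤ ε / 2) := by
    intro w
    by_cases hw : w ∈ S
    · obtain ⟨y, hy, hyw⟩ := hVS w hw
      obtain ⟨r', α', β', h1, h2, -, h4⟩ := hKAP lv.H K lv.E lv.B N lv.S lv.a lv.b haS hbS
        (fun x hx y hy => hcomm x (lv.le hx) y hy) lv.gen y hy lv.η (ε / 4) (by positivity)
      refine ⟨r', α', β', h1, h2, fun _ => ?_⟩
      have e1 : ev V w.toWord - ∑ s, lv.a (α' s) * lv.b (β' s) = (ev V w.toWord - y) +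
          (y - ∑ s, lv.a (α' s) * lv.b (β' s)) := by abel
      rw [e1]
      refine (nadd _ _ _).trans ?_
      linarith
    · exact ⟨0, Fin.elim0, Fin.elim0, fun s => s.elim0, fun s => s.elim0,
        fun h => absurd h hw⟩
  choose r' α' β' hα' hβ' hS' using hS
  let F : Finset (Op lv.H) := S.biUnion fun w => Finset.univ.image (α' w)
  have hF : ∀ x ∈ F, x ∈ lv.B := by
    intro x hx
    obtain ⟨w, -, hw⟩ := Finset.mem_biUnion.1 hx
    obtain ⟨s, -, rfl⟩ := Finset.mem_image.1 hw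
    exact hα' w s
  set D' : ℝ := 1 + ∑ w ∈ S, ∑ s, ‖lv.b (β' w s)‖ with hD'
  have hD'0 : 0 < D' := by
    have : 0 ≤ ∑ w ∈ S, ∑ s, ‖lv.b (β' w s)‖ :=
      Finset.sum_nonneg fun w _ => Finset.sum_nonneg fun s _ => norm_nonneg _
    linarith
  obtain ⟨L, d, ι, hιi, hιB, hιF⟩ := lv.hyperfinite F (ε / (4 * D')) hF (by positivity)
  have hz : ∀ (w : FreeGroup (Fin n)) (s : Fin (r' w)), ∃ z, w ∈ S →
      ‖(α' w s - ι z) lv.ξ‖ ≤ ε / (4 * D') := by
    intro w s
    by_cases hw : w ∈ S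
    · obtain ⟨z, hz⟩ := hιF (α' w s) (Finset.mem_biUnion.2 ⟨w, hw,
        Finset.mem_image.2 ⟨s, Finset.mem_univ _, rfl⟩⟩)
      exact ⟨z, fun _ => hz⟩
    · exact ⟨0, fun h => absurd h hw⟩
  choose z hz using hz
  refine ⟨K, iK1, iK2, iK3, N, ζ, lv, r, α, β, P, L, d, ι, hN, hQ, hα, hβ, fun i => rfl, hιi,
    fun z => lv.le (hιB z), hPM, hunit, ?_, ?_, ?_⟩
  · intro w hw
    have h1 := hlen w.toWord (hℓ w (Finset.mem_insert_of_mem (Finset.mem_union_left _ hw)))
    have h2 := hVR w hw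
    have e1 : ev P w.toWord - 1 = (ev P w.toWord - ev V w.toWord) + (ev V w.toWord - 1) := by
      abel
    rw [e1]
    refine (nadd _ _ _).trans ?_
    linarith
  · intro w hw
    refine ⟨fun l p q => ∑ s, z w s l p q • β' w s,
      fun l p q => vsum _ _ fun s _ => vsmul _ (hβ' w s), ?_⟩
    rw [← te_expand haS hbS hιB (z w) (β' w) (hβ' w)]
    have h1 := hlen w.toWord (hℓ w (Finset.mem_insert_of_mem (Finset.mem_union_right _ hw)))
    have h2 := hS' w hw
    have e1 : ev P w.toWord - ∑ s, lv.a (ι (z w s)) * lv.b (β' w s) =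
        (ev P w.toWord - ev V w.toWord) +
        (ev V w.toWord - ∑ s, lv.a (α' w s) * lv.b (β' w s)) +
        ∑ s, lv.a (α' w s - ι (z w s)) * lv.b (β' w s) := by
      have h3 : ∑ s, lv.a (α' w s - ι (z w s)) * lv.b (β' w s) =
          ∑ s, lv.a (α' w s) * lv.b (β' w s) - ∑ s, lv.a (ι (z w s)) * lv.b (β' w s) := by
        rw [← Finset.sum_sub_distrib]
        refine Finset.sum_congr rfl fun s _ => ?_
        rw [hom_sub haS (hα' w s) (hιB _), sub_mul]
      rw [h3]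
      abel
    have h4 : ‖(∑ s, lv.a (α' w s - ι (z w s)) * lv.b (β' w s)) lv.η‖ ≤ ε / 4 := by
      rw [ContinuousLinearMap.sum_apply]
      refine (norm_sum_le _ _).trans ?_
      calc ∑ s, ‖(lv.a (α' w s - ι (z w s)) * lv.b (β' w s)) lv.η‖
          ≤ ∑ s, ‖lv.b (β' w s)‖ * (ε / (4 * D')) := by
            refine Finset.sum_le_sum fun s _ => ?_
            refine (norm_ab hN lv.tensor (lv.le (vsub (hα' w s) (hιB _))) (hβ' w s)).trans ?_
            exact mul_le_mul_of_nonneg_left (hz w s hw) (norm_nonneg _)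
        _ = (∑ s, ‖lv.b (β' w s)‖) * (ε / (4 * D')) := by rw [Finset.sum_mul]
        _ ≤ D' * (ε / (4 * D')) := by
            apply mul_le_mul_of_nonneg_right _ (by positivity)
            have h5 : ∑ s, ‖lv.b (β' w s)‖ ≤ ∑ w ∈ S, ∑ s, ‖lv.b (β' w s)‖ :=
              Finset.single_le_sum (f := fun w => ∑ s, ‖lv.b (β' w s)‖)
                (fun w _ => Finset.sum_nonneg fun s _ => norm_nonneg _) hw
            linarith
        _ = ε / 4 := by field_simp
    rw [e1]
    refine (nadd _ _ _).trans ?_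
    have h5 := nadd (ev P w.toWord - ev V w.toWord)
      (ev V w.toWord - ∑ s, lv.a (α' w s) * lv.b (β' w s)) lv.η
    have h6 : ‖((ev P w.toWord - ev V w.toWord) +
        (ev V w.toWord - ∑ s, lv.a (α' w s) * lv.b (β' w s))) lv.η‖ ≤ ε / 4 + ε / 2 :=
      h5.trans (add_le_add h1 h2)
    linarith
  · intro κ hκ
    have h1 := hVx (te lv.a lv.b ι κ) (te_mem haS hbS hιB κ hκ)
    have h2 := hlen x.toWord (hℓ x (Finset.mem_insert_self _ _))
    have e1 : ev P x.toWord lv.η = ev V x.toWord lv.η + (ev P x.toWord - ev V x.toWord) lv.η := by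
      show ev P x.toWord lv.η = ev V x.toWord lv.η + (ev P x.toWord lv.η - ev V x.toWord lv.η)
      abel
    rw [e1, inner_add_right]
    refine (norm_add_le _ _).trans ?_
    have h3 := norm_inner_le_norm (𝕜 := ℂ) (te lv.a lv.b ι κ lv.η)
      ((ev P x.toWord - ev V x.toWord) lv.η)
    have h4 := norm_nonneg (te lv.a lv.b ι κ lv.η)
    nlinarith

end Pool.Agent.P8H76.RE
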