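import Pool.Agent.P8H76.RE.Mid

/-!
# Project RE: TSQ (Cauchy-Schwarz for operators)
-/

set_option autoImplicit false

open scoped Topology InnerProductSpace Kronecker ComplexOrder
open Filter Matrix

namespace Pool.Agent.P8H76.RE

open Pool.Agent.P8H72.RE
open Pool.Agent.N557.QWX (Op tr IsTracial IsHom)

section mat

variable {L : ℕ} {d : Fin L → ℕ}

lemma mE_mul_same (l : Fin L) (p q p' q' : Fin (d l)) :
    mE d l p q * mE d l p' q' = if q = p' then mE d l p q' else 0 := by
  unfold mE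
  rw [← Pi.single_mul]
  split_ifs with h
  · rw [h, Matrix.single_mul_single_same, mul_one]
  · rw [Matrix.single_mul_single_of_ne _ _ _ _ h, Pi.single_zero]

lemma mE_mul_ne {l l' : Fin L} (h : l ≠ l') (p q : Fin (d l)) (p' q' : Fin (d l')) :
    mE d l p q * mE d l' p' q' = 0 := by
  funext i
  unfold mE
  rw [Pi.mul_apply, Pi.zero_apply]
  by_cases hi : i = l
  · have h' : i ≠ l' := fun h1 => h (hi.symm.trans h1)
    rw [Pi.single_eq_of_ne h', mul_zero]
  · rw [Pi.single_eq_of_ne hi, zero_mul]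

lemma mE_star (l : Fin L) (p q : Fin (d l)) : star (mE d l p q) = mE d l q p := by
  funext i
  unfold mE
  rw [Pi.star_apply]
  by_cases hi : i = l
  · subst hi
    rw [Pi.single_eq_same, Pi.single_eq_same, Matrix.star_eq_conjTranspose,
      Matrix.conjTranspose_single, star_one]
  · rw [Pi.single_eq_of_ne hi, Pi.single_eq_of_ne hi, star_zero]

lemma mE_ne_zero (l : Fin L) (p q : Fin (d l)) : mE d l p q ≠ 0 := by
  intro h
  have h1 := congrFun (congrFun (congrFun h l) p) q
  unfold mE at h1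
  rw [Pi.single_eq_same] at h1
  simp at h1

end mat

section tr

variable {H : Type} [NormedAddCommGroup H] [InnerProductSpace ℂ H] [CompleteSpace H]
  {A : VonNeumannAlgebra H} {ξ : H} {L : ℕ} {d : Fin L → ℕ}
  {ι : (∀ l, Matrix (Fin (d l)) (Fin (d l)) ℂ) →⋆ₐ[ℂ] Op H}

lemma tr_pos (hA : IsTracial A ξ) (hi : Function.Injective ι) (hι : ∀ z, ι z ∈ A) (l : Fin L)
    (p : Fin (d l)) : 0 < (tr ξ (ι (mE d l p p))).re := by
  have h1 : ι (mE d l p p) = star (ι (mE d l p p)) * ι (mE d l p p) := by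
    rw [← map_star, ← map_mul, mE_star, mE_mul_same, if_pos rfl]
  have h2 : tr ξ (ι (mE d l p p)) = ((‖ι (mE d l p p) ξ‖ ^ 2 : ℝ) : ℂ) := by
    conv_lhs => rw [h1]
    exact tr_star_mul ξ _
  rw [h2, Complex.ofReal_re]
  have h3 : ‖ι (mE d l p p) ξ‖ ≠ 0 := by
    intro h4
    have h5 : ι (mE d l p p) = 0 := hA.faithful _ (hι _) (by rw [tr_star_mul, h4]; simp)
    exact mE_ne_zero l p p (hi (by rw [h5, map_zero]))
  positivity

lemma tr_im (l : Fin L) (p : Fin (d l)) :
    tr ξ (ι (mE d l p p)) = (((tr ξ (ι (mE d l p p))).re : ℝ) : ℂ) := by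
  have h1 : ι (mE d l p p) = star (ι (mE d l p p)) * ι (mE d l p p) := by
    rw [← map_star, ← map_mul, mE_star, mE_mul_same, if_pos rfl]
  have h2 : tr ξ (ι (mE d l p p)) = ((‖ι (mE d l p p) ξ‖ ^ 2 : ℝ) : ℂ) := by
    conv_lhs => rw [h1]
    exact tr_star_mul ξ _
  rw [h2, Complex.ofReal_re]

lemma tr_diag (hA : IsTracial A ξ) (hι : ∀ z, ι z ∈ A) (l : Fin L) (p q : Fin (d l)) :
    tr ξ (ι (mE d l p p)) = tr ξ (ι (mE d l q q)) := by
  have h1 := hA.tracial _ (hι (mE d l p q)) _ (hι (mE d l q p))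
  rwa [← map_mul, ← map_mul, mE_mul_same, mE_mul_same, if_pos rfl, if_pos rfl] at h1

lemma tr_off (hA : IsTracial A ξ) (hι : ∀ z, ι z ∈ A) (l : Fin L) (p q : Fin (d l))
    (h : p ≠ q) : tr ξ (ι (mE d l p q)) = 0 := by
  have h1 := hA.tracial _ (hι (mE d l p p)) _ (hι (mE d l p q))
  rw [← map_mul, ← map_mul, mE_mul_same, mE_mul_same, if_pos rfl, if_neg h.symm, map_zero] at h1
  rw [h1]
  unfold tr
  simp

lemma tr_zero (ξ : H) : tr ξ (0 : Op H) = 0 := by
  unfold tr
  simp

end tr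

section tens

variable {H K E : Type} [NormedAddCommGroup H] [InnerProductSpace ℂ H] [CompleteSpace H]
  [NormedAddCommGroup K] [InnerProductSpace ℂ K] [CompleteSpace K]
  [NormedAddCommGroup E] [InnerProductSpace ℂ E] [CompleteSpace E]
  {A : VonNeumannAlgebra H} {ξ : H} {N : VonNeumannAlgebra K} {ζ : K} {T : VonNeumannAlgebra E}
  {η : E} {a : Op H → Op E} {b : Op K → Op E}

lemma inner_ab (h : IsTensor A ξ N ζ T η a b) {x x' : Op H} (hx : x ∈ A) (hx' : x' ∈ A)
    {y y' : Op K} (hy : y ∈ N) (hy' : y' ∈ N) :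
    ⟪(a x * b y) η, (a x' * b y') η⟫_ℂ = tr ξ (star x * x') * tr ζ (star y * y') := by
  have h1 : ⟪(a x * b y) η, (a x' * b y') η⟫_ℂ = tr η (star (a x * b y) * (a x' * b y')) := by
    unfold tr
    rw [ContinuousLinearMap.star_eq_adjoint]
    exact (ContinuousLinearMap.adjoint_inner_right (a x * b y) η ((a x' * b y') η)).symm
  have h2 : star (a x * b y) * (a x' * b y') = a (star x * x') * b (star y * y') := by
    rw [star_mul, ← h.homA.star x hx, ← h.homN.star y hy, h.homA.mul _ (vstar hx) _ hx',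
      h.homN.mul _ (vstar hy) _ hy']
    have h3 := h.comm (star x * x') (vmul (vstar hx) hx') (star y) (vstar hy)
    rw [h.homA.mul _ (vstar hx) _ hx'] at h3
    calc b (star y) * a (star x) * (a x' * b y')
        = b (star y) * (a (star x) * a x') * b y' := by noncomm_ring
      _ = a (star x) * a x' * b (star y) * b y' := by rw [← h3]
      _ = a (star x) * a x' * (b (star y) * b y') := by noncomm_ring
  rw [h1, h2, h.trace _ (vmul (vstar hx) hx') _ (vmul (vstar hy) hy')]

lemma tr_sum_smul (ζ : K) {r : ℕ} (c : Fin r → ℂ) (y : Op K) (β : Fin r → Op K) :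
    ∑ s, c s * tr ζ (y * β s) = tr ζ (y * ∑ s, c s • β s) := by
  unfold tr
  rw [Finset.mul_sum, ContinuousLinearMap.sum_apply, inner_sum]
  refine Finset.sum_congr rfl fun s _ => ?_
  rw [mul_smul_comm, ContinuousLinearMap.smul_apply, inner_smul_right]

end tens

lemma te_apply {H K E : Type} [NormedAddCommGroup H] [InnerProductSpace ℂ H] [CompleteSpace H]
    [NormedAddCommGroup K] [InnerProductSpace ℂ K] [CompleteSpace K]
    [NormedAddCommGroup E] [InnerProductSpace ℂ E] [CompleteSpace E] {L : ℕ} {d : Fin L → ℕ}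
    (a : Op H → Op E) (b : Op K → Op E)
    (ι : (∀ l, Matrix (Fin (d l)) (Fin (d l)) ℂ) →⋆ₐ[ℂ] Op H)
    (κ : ∀ l, Fin (d l) → Fin (d l) → Op K) (η : E) :
    te a b ι κ η = ∑ l, ∑ p, ∑ q, (a (ι (mE d l p q)) * b (κ l p q)) η := by
  unfold te
  rw [ContinuousLinearMap.sum_apply]
  refine Finset.sum_congr rfl fun l _ => ?_
  rw [ContinuousLinearMap.sum_apply]
  refine Finset.sum_congr rfl fun p _ => ?_
  rw [ContinuousLinearMap.sum_apply]

theorem t_TSQ : S_TSQ := by
  classical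
  intro H K E _ _ _ _ _ _ _ _ _ A ξ N ζ T η a b hA hN h L d ι hi hι
  refine ⟨fun l p => tr_pos hA hi hι l p, ?_⟩
  intro r α β ε hα hβ hε hk
  set t : ∀ l, Fin (d l) → ℝ := fun l p => (tr ξ (ι (mE d l p p))).re with ht
  have htpos : ∀ l p, 0 < t l p := fun l p => tr_pos hA hi hι l p
  have hteq : ∀ l p q, t l p = t l q := fun l p q => by
    show (tr ξ (ι (mE d l p p))).re = (tr ξ (ι (mE d l q q))).re
    rw [tr_diag hA hι l p q]
  set g : ∀ l, Fin (d l) → Fin (d l) → Op K := fun l p q =>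
    ∑ s, tr ξ (star (ι (mE d l p q)) * α s) • β s with hg
  have hgN : ∀ l p q, g l p q ∈ N := fun l p q => vsum _ _ fun s _ => vsmul _ (hβ s)
  set κ : ∀ l, Fin (d l) → Fin (d l) → Op K := fun l p q => (((t l p)⁻¹ : ℝ) : ℂ) • g l p q
    with hκ
  have hκN : ∀ l p q, κ l p q ∈ N := fun l p q => vsmul _ (hgN l p q)
  set Sg : ℝ := ∑ l, ∑ p, ∑ q, ‖g l p q ζ‖ ^ 2 / t l p with hSg
  have hSg0 : 0 ≤ Sg := Finset.sum_nonneg fun l _ => Finset.sum_nonneg fun p _ =>
    Finset.sum_nonneg fun q _ => div_nonneg (sq_nonneg _) (htpos l p).le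
  have hSgC : (Sg : ℂ) = ∑ l, ∑ p, ∑ q, ((‖g l p q ζ‖ ^ 2 / t l p : ℝ) : ℂ) := by
    rw [hSg, Complex.ofReal_sum]
    refine Finset.sum_congr rfl fun l _ => ?_
    rw [Complex.ofReal_sum]
    refine Finset.sum_congr rfl fun p _ => ?_
    rw [Complex.ofReal_sum]
  -- the inner product
  have h1 : ⟪te a b ι κ η, (∑ s, a (α s) * b (β s)) η⟫_ℂ = (Sg : ℂ) := by
    rw [te_apply, ContinuousLinearMap.sum_apply, sum_inner, hSgC]
    refine Finset.sum_congr rfl fun l _ => ?_
    rw [sum_inner]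
    refine Finset.sum_congr rfl fun p _ => ?_
    rw [sum_inner]
    refine Finset.sum_congr rfl fun q _ => ?_
    rw [inner_sum]
    have h2 : ∀ s, ⟪(a (ι (mE d l p q)) * b (κ l p q)) η, (a (α s) * b (β s)) η⟫_ℂ =
        tr ξ (star (ι (mE d l p q)) * α s) * tr ζ (star (κ l p q) * β s) := fun s =>
      inner_ab h (hι _) (hα s) (hκN l p q) (hβ s)
    simp only [h2]
    rw [tr_sum_smul]
    have h3 : star (κ l p q) * ∑ s, tr ξ (star (ι (mE d l p q)) * α s) • β s =
        (((t l p)⁻¹ : ℝ) : ℂ) • (star (g l p q) * g l p q) := by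
      show star ((((t l p)⁻¹ : ℝ) : ℂ) • g l p q) * g l p q = _
      rw [star_smul, smul_mul_assoc]
      congr 1
      exact Complex.conj_ofReal _
    have h4 : tr ζ ((((t l p)⁻¹ : ℝ) : ℂ) • (star (g l p q) * g l p q)) =
        (((t l p)⁻¹ : ℝ) : ℂ) * tr ζ (star (g l p q) * g l p q) := by
      unfold tr
      rw [ContinuousLinearMap.smul_apply, inner_smul_right]
    rw [h3, h4, tr_star_mul]
    push_cast
    field_simp
  -- the norm
  have h2 : ‖te a b ι κ η‖ ^ 2 = Sg := by
    have h3 : ((‖te a b ι κ η‖ ^ 2 : ℝ) : ℂ) = (Sg : ℂ) := by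
      have h4 : ((‖te a b ι κ η‖ ^ 2 : ℝ) : ℂ) = ⟪te a b ι κ η, te a b ι κ η⟫_ℂ := by
        rw [inner_self_eq_norm_sq_to_K]
        push_cast
        rfl
      rw [h4, te_apply, sum_inner, hSgC]
      refine Finset.sum_congr rfl fun l _ => ?_
      rw [sum_inner]
      refine Finset.sum_congr rfl fun p _ => ?_
      rw [sum_inner]
      refine Finset.sum_congr rfl fun q _ => ?_
      -- inner product with one term
      have h5 : ∀ l' p' q', ⟪(a (ι (mE d l p q)) * b (κ l p q)) η,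
          (a (ι (mE d l' p' q')) * b (κ l' p' q')) η⟫_ℂ =
          tr ξ (star (ι (mE d l p q)) * ι (mE d l' p' q')) *
            tr ζ (star (κ l p q) * κ l' p' q') := fun l' p' q' =>
        inner_ab h (hι _) (hι _) (hκN l p q) (hκN l' p' q')
      simp only [inner_sum, h5]
      rw [Finset.sum_eq_single l, Finset.sum_eq_single p, Finset.sum_eq_single q]
      · rw [← map_star, ← map_mul, mE_star, mE_mul_same, if_pos rfl, tr_im l q, tr_star_mul]
        have h6 : ‖κ l p q ζ‖ = (t l p)⁻¹ * ‖g l p q ζ‖ := by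
          show ‖((((t l p)⁻¹ : ℝ) : ℂ) • g l p q) ζ‖ = _
          rw [ContinuousLinearMap.smul_apply, norm_smul, Complex.norm_real, Real.norm_eq_abs,
            abs_of_pos (inv_pos.2 (htpos l p))]
        rw [h6]
        have h7 : (tr ξ (ι (mE d l q q))).re = t l p := hteq l q p
        rw [h7]
        have h8 := (htpos l p).ne'
        have h9 : ((t l p : ℝ) : ℂ) ≠ 0 := by exact_mod_cast h8
        push_cast
        field_simp
      · intro q' _ hq'
        rw [← map_star, ← map_mul, mE_star, mE_mul_same, if_pos rfl,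
          tr_off hA hι l q q' hq'.symm, zero_mul]
      · intro h6
        exact absurd (Finset.mem_univ _) h6
      · intro p' _ hp'
        refine Finset.sum_eq_zero fun q' _ => ?_
        rw [← map_star, ← map_mul, mE_star, mE_mul_same, if_neg hp'.symm, map_zero, tr_zero,
          zero_mul]
      · intro h6
        exact absurd (Finset.mem_univ _) h6
      · intro l' _ hl'
        refine Finset.sum_eq_zero fun p' _ => Finset.sum_eq_zero fun q' _ => ?_
        rw [← map_star, ← map_mul, mE_star, mE_mul_ne hl'.symm, map_zero, tr_zero, zero_mul]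
      · intro h6
        exact absurd (Finset.mem_univ _) h6
    exact_mod_cast h3
  have h3 := hk κ hκN
  rw [h1, Complex.norm_real, Real.norm_eq_abs, abs_of_nonneg hSg0] at h3
  show Sg ≤ ε ^ 2
  have h4 := norm_nonneg (te a b ι κ η)
  rw [← h2] at h3 ⊢
  by_cases h5 : ‖te a b ι κ η‖ = 0
  · rw [h5, zero_pow two_ne_zero]
    positivity
  · have h6 : 0 < ‖te a b ι κ η‖ := lt_of_le_of_ne h4 (Ne.symm h5)
    have h7 : ‖te a b ι κ η‖ ≤ ε := by
      have h8 : ‖te a b ι κ η‖ * ‖te a b ι κ η‖ ≤ ε * ‖te a b ι κ η‖ := by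
        rw [← sq]
        exact h3
      exact le_of_mul_le_mul_right h8 h6
    exact pow_le_pow_left₀ h4 h7 2

end Pool.Agent.P8H76.RE
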